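import Pool.Agent.R221.KP.Main

set_option autoImplicit false

open MeasureTheory Set Pool.Agent.R221.KP

namespace Pool.Agent.Results.MP_ff06a2_an.ArcNonuniqueness

/-- There is a Borel probability measure `ρ` on `ℝ⁶` with compact, connected (even path connected)
support such that for `μ = ρ` and the quadratic cost `c(x, y) = ‖x - y‖²` the standing hypotheses
hold and two pairs of Kantorovich potentials do not differ by a constant. -/
theorem result : ∃ ρ : Measure (Sp 6), IsProbabilityMeasure ρ ∧ IsCompact ρ.support ∧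
    IsConnected ρ.support ∧ IsPathConnected ρ.support ∧
    HypH ρ ρ (fun x y => ‖x - y‖ ^ 2) ∧
    ∃ φ₀ ψ₀ φ₁ ψ₁ : Sp 6 → ℝ,
      IsPotentialPair ρ ρ (fun x y => ‖x - y‖ ^ 2) φ₀ ψ₀ ∧
      IsPotentialPair ρ ρ (fun x y => ‖x - y‖ ^ 2) φ₁ ψ₁ ∧
      ¬ UpToConst ρ ρ φ₀ ψ₀ φ₁ ψ₁ := by
  refine ⟨rho, rho_prob, ?_, ?_, ?_, hypH, _, _, _, _, potentials_zero, potentials_par,
    not_upToConst⟩
  · rw [rho_support]; exact isCompact_arc
  · rw [rho_support]; exact isConnected_arc
  · rw [rho_support]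
    exact ((convex_Icc (0 : ℝ) 1).isPathConnected (nonempty_Icc.2 zero_le_one)).image'
      continuous_γ.continuousOn

end Pool.Agent.Results.MP_ff06a2_an.ArcNonuniqueness
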